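import Mathlib
import Pool.Agent.N178.BL.Dec

/-!
# Morphisms of motives of abelian varieties and homologically trivial cycles

Auxiliary results for `MP_13bc1c_ag`: the action of correspondences on homologically trivial cycles of
small dimension, and the complexifications of disjoint rational subspaces of the cohomology.
-/

set_option autoImplicit false

namespace Run7.h567.BL

open Module Pool.Agent.Y90 Pool.Agent.R915 Pool.Agent.N178.BL
open Pool.Agent.W546.GHC (IsHodgeSubstructure complexify typeForms)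

noncomputable section

variable {C : ChowTheory} {X Y O : AV} {c : ℕ}

/-! ## Complexifications -/

theorem dual_mem {m : ℕ} {V : Submodule ℚ (X.H [⋀^Fin m]→ₗ[ℚ] ℚ)}
    {ψ : X.T [⋀^Fin m]→ₗ[ℝ] ℂ} (hψ : ψ ∈ complexify X.per V) :
    ∀ l : ℂ →ₗ[ℚ] ℚ, ∃ g ∈ V, ∀ w : Fin m → X.H, l (ψ (fun k => X.per (w k))) = g w := by
  unfold complexify at hψ
  induction hψ using Submodule.span_induction with
  | mem ψ h =>
    intro l
    obtain ⟨f, hf, h⟩ := h
    refine ⟨(l 1) • f, V.smul_mem _ hf, fun w => ?_⟩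
    have h1 : ((f w : ℚ) : ℂ) = (f w) • (1 : ℂ) := by
      rw [Algebra.smul_def, mul_one]
      rfl
    rw [h w, h1, map_smul, AlternatingMap.smul_apply, smul_eq_mul, smul_eq_mul, mul_comm]
  | zero =>
    intro l
    refine ⟨0, V.zero_mem, fun w => ?_⟩
    simp
  | add a b _ _ ha hb =>
    intro l
    obtain ⟨g, hg, h1⟩ := ha l
    obtain ⟨g', hg', h2⟩ := hb l
    refine ⟨g + g', V.add_mem hg hg', fun w => ?_⟩
    rw [AlternatingMap.add_apply, map_add, h1, h2, AlternatingMap.add_apply]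
  | smul r a _ ha =>
    intro l
    obtain ⟨g, hg, h1⟩ := ha (l ∘ₗ (LinearMap.mulLeft ℚ r))
    refine ⟨g, hg, fun w => ?_⟩
    rw [← h1 w, AlternatingMap.smul_apply, smul_eq_mul]
    rfl

/-- The complexifications of disjoint subspaces are disjoint. -/
theorem complexify_disjoint {m : ℕ} {V W : Submodule ℚ (X.H [⋀^Fin m]→ₗ[ℚ] ℚ)}
    (h : ∀ g ∈ V, g ∈ W → g = 0) {ψ : X.T [⋀^Fin m]→ₗ[ℝ] ℂ}
    (hV : ψ ∈ complexify X.per V) (hW : ψ ∈ complexify X.per W) : ψ = 0 := by
  have h1 : ∀ w : Fin m → X.H, ψ (fun k => X.per (w k)) = 0 := by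
    intro w
    rw [← Module.forall_dual_apply_eq_zero_iff ℚ]
    intro l
    obtain ⟨g, hg, h1⟩ := dual_mem hV l
    obtain ⟨g', hg', h2⟩ := dual_mem hW l
    have h3 : g = g' := by
      ext w
      rw [← h1, ← h2]
    subst h3
    rw [h1, h g hg hg', AlternatingMap.zero_apply]
  have h2 : ψ.toMultilinearMap = 0 := by
    refine MultilinearMap.ext_of_span_eq_top (g := fun _ => X.per) (fun _ => X.span) fun w => ?_
    exact h1 w
  ext v
  exact congrArg (fun f : MultilinearMap ℝ (fun _ : Fin m => X.T) ℂ => f v) h2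

theorem complexify_mono {m : ℕ} {V W : Submodule ℚ (X.H [⋀^Fin m]→ₗ[ℚ] ℚ)} (h : V ≤ W) :
    complexify X.per V ≤ complexify X.per W :=
  Submodule.span_mono fun _ ⟨f, hf, h1⟩ => ⟨f, h hf, h1⟩

/-! ## Images of correspondences -/

/-- The degree `m` part of the image of `f^*`. -/
def Im (f : C.Co X Y) (m : ℕ) : Submodule ℚ (X.H [⋀^Fin m]→ₗ[ℚ] ℚ) :=
  Submodule.span ℚ {θ | ∃ ω, θ = C.pb f ω m}

theorem mem_Im {f : C.Co X Y} {m : ℕ} {θ : X.H [⋀^Fin m]→ₗ[ℚ] ℚ} :
    θ ∈ Im f m ↔ ∃ ω, θ = C.pb f ω m := by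
  constructor
  · intro h
    unfold Im at h
    induction h using Submodule.span_induction with
    | mem θ h => exact h
    | zero => exact ⟨0, by rw [pb_zero]; rfl⟩
    | add a b _ _ ha hb =>
      obtain ⟨ω, rfl⟩ := ha
      obtain ⟨η, rfl⟩ := hb
      exact ⟨ω + η, by rw [C.pb_add]; rfl⟩
    | smul r a _ ha =>
      obtain ⟨ω, rfl⟩ := ha
      refine ⟨r • ω, ?_⟩
      have h1 : C.pb f (r • ω) = r • C.pb f ω := (pbL f).map_smul r ω
      rw [h1]
      rfl
  · rintro ⟨ω, rfl⟩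
    exact Submodule.subset_span ⟨ω, rfl⟩

/-! ## Cycles -/

/-- `z` is a homologically trivial cycle of dimension `i` on `X`, for a point `O`. -/
def HT0 (C : ChowTheory) {O X : AV} (i : ℤ) (z : C.Co O X) : Prop :=
  C.IsDeg i z ∧ ∀ ω, C.pb z ω = 0

theorem HT0.comp {i : ℤ} {z : C.Co O X} (h : HT0 C i z) {f : C.Co X Y} (hf : C.IsDeg 0 f) :
    HT0 C i (C.o f z) := by
  refine ⟨?_, fun ω => ?_⟩
  · have h3 := C.deg_o z f h.1 hf
    rwa [add_zero] at h3
  · have h3 : C.pb (C.o f z) ω = C.pb z (C.pb f ω) := C.pb_o z f ω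
    rw [h3, h.2]

theorem HT0.iter {i : ℤ} {z : C.Co O X} (h : HT0 C i z) {f : C.Co X X} (hf : C.IsDeg 0 f)
    (k : ℕ) : HT0 C i ((fun z => C.o f z)^[k] z) := by
  induction k with
  | zero => exact h
  | succ k ih =>
    rw [Function.iterate_succ_apply']
    exact ih.comp hf

/-- Homologically trivial correspondences act nilpotently. -/
theorem nil_act {ν : C.Co X X} (hd : C.IsDeg 0 ν) (h : ∀ ω, C.pb ν ω = 0) :
    ∃ N : ℕ, ∀ (O : AV) (z : C.Co O X), (fun z => C.o ν z)^[N] z = 0 := by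
  obtain ⟨N, hN⟩ := C.nilpotent ν hd h
  refine ⟨N, fun O z => ?_⟩
  have h1 : ∀ k : ℕ, (fun z => C.o ν z)^[k] z =
      C.o ((fun g : C.Co X X => C.o ν g)^[k] (C.one X)) z := by
    intro k
    induction k with
    | zero =>
      change z = C.o (C.one X) z
      rw [C.one_o]
    | succ k ih =>
      rw [Function.iterate_succ_apply', Function.iterate_succ_apply', ih, C.assoc]
  rw [h1, hN, zero_o]

/-- The elements of `Fac` kill homologically trivial cycles of small dimension. -/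
theorem kill {q : C.Co X X} (hq : q ∈ Fac C X c) (hO : finrank ℚ O.H = 0) {i : ℤ} (hi : i < c)
    {z : C.Co O X} (hz : HT0 C i z) : C.o q z = 0 := by
  unfold Fac at hq
  induction hq using AddSubgroup.closure_induction with
  | mem q hq =>
    obtain ⟨Y, r, Γ, κ, h1, h2, h3, rfl⟩ := hq
    rw [← C.assoc]
    have h4 : C.o Γ z = 0 := by
      rcases h1 with rfl | ⟨-, hY⟩
      · refine C.deg_neg _ (C.deg_o z Γ hz.1 h2) ?_
        rw [hO]
        push_cast
        omega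
      · refine C.point _ hO hY fun ω => ?_
        have h5 : C.pb (C.o Γ z) ω = C.pb z (C.pb Γ ω) := C.pb_o z Γ ω
        rw [h5, hz.2]
    rw [h4, o_zero]
  | zero => rw [zero_o]
  | add a b _ _ ha hb => rw [C.add_o, ha, hb, add_zero]
  | neg a _ ha => rw [neg_o, ha, neg_zero]

/-- The image of `f^*` is fixed by an element of `Fac`. -/
def Fix (c : ℕ) (f : C.Co X X) : Prop := ∃ q ∈ Fac C X c, ∀ ω, C.pb q (C.pb f ω) = C.pb f ω

/-- Correspondences of large coniveau act nilpotently. -/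
theorem Fix.nilp {f : C.Co X X} (hf : C.IsDeg 0 f) (h : Fix c f) :
    ∃ N : ℕ, ∀ (O : AV) (i : ℤ) (z : C.Co O X), finrank ℚ O.H = 0 → i < c → HT0 C i z →
      (fun z => C.o f z)^[N] z = 0 := by
  obtain ⟨q, hq, h⟩ := h
  have hfq : C.IsDeg 0 (C.o f q) := Fac_deg (Fac_left hf hq)
  obtain ⟨ν, hν⟩ : ∃ ν, ν = f - C.o f q := ⟨_, rfl⟩
  have hd : C.IsDeg 0 ν := by
    rw [hν]
    exact C.deg_sub _ _ hf hfq
  have h0 : ∀ ω, C.pb ν ω = 0 := by
    intro ω
    have h1 : C.pb (C.o f q) ω = C.pb q (C.pb f ω) := C.pb_o q f ω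
    rw [hν, pb_sub, h1, h, sub_self]
  obtain ⟨N, hN⟩ := nil_act hd h0
  refine ⟨N, fun O i z hO hi hz => ?_⟩
  rw [← hN O z]
  have key : ∀ k : ℕ, (fun z => C.o f z)^[k] z = (fun z => C.o ν z)^[k] z := by
    intro k
    induction k with
    | zero => rfl
    | succ k ih =>
      rw [Function.iterate_succ_apply', Function.iterate_succ_apply', ← ih]
      have h1 : HT0 C i ((fun z => C.o f z)^[k] z) := hz.iter hf k
      obtain ⟨y, hy⟩ : ∃ y, y = (fun z => C.o f z)^[k] z := ⟨_, rfl⟩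
      rw [← hy] at h1 ⊢
      have h2 : f = ν + C.o f q := by rw [hν]; abel
      change C.o f y = C.o ν y
      conv_lhs => rw [h2]
      rw [C.add_o, ← C.assoc, kill hq hO hi h1, o_zero, add_zero]
  exact key N

variable {p : C.Co X X} {p' : C.Co Y Y} {f : C.Co X Y} {g : C.Co Y X}

/-- **Injectivity.** -/
theorem inj (hp : C.IsMotive p) (hf : C.IsDeg 0 f) (hg : C.IsDeg 0 g)
    (h : Fix c (p - C.o p (C.o g f))) {i : ℤ} (hO : finrank ℚ O.H = 0) (hi : i < c)
    {z : C.Co O X} (hz : HT0 C i z) (hpz : C.o p z = z) (hfz : C.o f z = 0) : z = 0 := by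
  have hd : C.IsDeg 0 (p - C.o p (C.o g f)) := by
    refine C.deg_sub _ _ hp.1 ?_
    have h1 := C.deg_o _ p (C.deg_o f g hf hg) hp.1
    simpa using h1
  obtain ⟨N, hN⟩ := h.nilp hd
  rw [← hN O i z hO hi hz]
  have h1 : C.o (p - C.o p (C.o g f)) z = z := by
    rw [sub_eq_add_neg, C.add_o, neg_o, hpz, ← C.assoc, ← C.assoc, hfz, o_zero, o_zero, neg_zero,
      add_zero]
  have key : ∀ k : ℕ, (fun z => C.o (p - C.o p (C.o g f)) z)^[k] z = z := by
    intro k
    induction k with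
    | zero => rfl
    | succ k ih => rw [Function.iterate_succ_apply', ih]; exact h1
  exact (key N).symm

/-- **Surjectivity.** -/
theorem surj (hp : C.IsMotive p) (hp' : C.IsMotive p') (hf : C.IsDeg 0 f) (hg : C.IsDeg 0 g)
    (hfp : C.o f p = f) (hfp' : C.o p' f = f)
    (h : Fix c (p' - C.o f (C.o g p'))) {i : ℤ} (hO : finrank ℚ O.H = 0) (hi : i < c)
    {z : C.Co O Y} (hz : HT0 C i z) (hpz : C.o p' z = z) :
    ∃ y : C.Co O X, HT0 C i y ∧ C.o p y = y ∧ C.o f y = z := by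
  have hd : C.IsDeg 0 (p' - C.o f (C.o g p')) := by
    refine C.deg_sub _ _ hp'.1 ?_
    have h1 := C.deg_o _ f (C.deg_o p' g hp'.1 hg) hf
    simpa using h1
  obtain ⟨N, hN⟩ := h.nilp hd
  have h2 : ∀ w : C.Co O Y, C.o p' w = w →
      C.o (p' - C.o f (C.o g p')) w = w - C.o f (C.o p (C.o g w)) := by
    intro w hw
    rw [sub_eq_add_neg, C.add_o, neg_o, hw, ← C.assoc, ← C.assoc, hw, sub_eq_add_neg,
      C.assoc _ p f, hfp]
  have key : ∀ k : ℕ, C.o p' ((fun z => C.o (p' - C.o f (C.o g p')) z)^[k] z) =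
      (fun z => C.o (p' - C.o f (C.o g p')) z)^[k] z ∧
      ∃ y : C.Co O X, HT0 C i y ∧ C.o p y = y ∧
        C.o f y = z - (fun z => C.o (p' - C.o f (C.o g p')) z)^[k] z := by
    intro k
    induction k with
    | zero =>
      refine ⟨hpz, 0, ⟨?_, fun ω => zero_pb ω⟩, o_zero _, ?_⟩
      · have h3 := (hz.comp hg).1
        exact deg_zero h3
      · rw [o_zero]
        exact (sub_self z).symm
    | succ k ih =>
      obtain ⟨ih1, y, hy1, hy2, hy3⟩ := ih
      have hw := hz.iter hd k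
      rw [Function.iterate_succ_apply']
      obtain ⟨w, hwd⟩ : ∃ w, w = (fun z => C.o (p' - C.o f (C.o g p')) z)^[k] z := ⟨_, rfl⟩
      rw [← hwd] at ih1 hy3 hw ⊢
      change C.o p' (C.o (p' - C.o f (C.o g p')) w) = C.o (p' - C.o f (C.o g p')) w ∧
        ∃ y : C.Co O X, HT0 C i y ∧ C.o p y = y ∧ C.o f y =
          z - C.o (p' - C.o f (C.o g p')) w
      rw [h2 w ih1]
      have h3 : HT0 C i (C.o p (C.o g w)) := (hw.comp hg).comp hp.1
      refine ⟨?_, y + C.o p (C.o g w), ⟨deg_add hy1.1 h3.1, fun ω => ?_⟩, ?_, ?_⟩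
      · rw [sub_eq_add_neg, C.o_add, o_neg, ih1, C.assoc _ f p', hfp']
      · rw [C.add_pb, hy1.2, h3.2, add_zero]
      · rw [C.o_add, hy2, C.assoc _ p p, hp.2]
      · rw [C.o_add, hy3]
        abel
  obtain ⟨-, y, hy1, hy2, hy3⟩ := key N
  refine ⟨y, hy1, hy2, ?_⟩
  rw [hy3, hN O i z hO hi hz, sub_zero]

end

end Run7.h567.BL
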