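import Mathlib
import Pool.Agent.Run7.h567.BL.Alg

/-!
# The Hodge coniveau of the kernel and the cokernel of a morphism of motives
-/

set_option autoImplicit false

namespace Run7.h567.BL

open Module Pool.Agent.Y90 Pool.Agent.R915 Pool.Agent.N178.BL
open Pool.Agent.W546.GHC (IsHodgeSubstructure complexify typeForms)

noncomputable section

variable {C : ChowTheory} {X Y O : AV} {c : ℕ}

/-- Correspondences of degree zero preserve the degree of the cohomology classes: the component of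
degree `m` of `f^* ω` is determined by the component of degree `m` of `ω`. -/
def PreservesDegrees (C : ChowTheory) : Prop :=
  ∀ (X Y : AV) (f : C.Co X Y), C.IsDeg 0 f → ∀ (ω η : HT Y) (m : ℕ), ω m = η m →
    C.pb f ω m = C.pb f η m

/-- The degree `m` part of the kernel of `f^*` on the cohomology of `(Y, p')`. -/
def Ker (p' : C.Co Y Y) (f : C.Co X Y) (m : ℕ) : Submodule ℚ (Y.H [⋀^Fin m]→ₗ[ℚ] ℚ) :=
  Submodule.span ℚ {θ | ∃ ω, C.pb f (C.pb p' ω) = 0 ∧ θ = C.pb p' ω m}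

variable {p : C.Co X X} {p' : C.Co Y Y} {f : C.Co X Y} {g : C.Co Y X}

theorem con_inj (hC : PreservesDegrees C) (hp : C.IsMotive p) (hf : C.IsDeg 0 f)
    (hg : C.IsDeg 0 g) (hfp : C.o f p = f)
    (hfg : ∀ ω, C.pb (C.o f (C.o g f)) ω = C.pb f ω)
    (h : ∀ m s t : ℕ, s + t = m → s ≠ t → (s < c ∨ t < c) →
      complexify X.per (C.img p m) ⊓ typeForms X.T m s t ≤ complexify X.per (Im f m)) :
    C.HasConiveau (p - C.o p (C.o g f)) c := by
  obtain ⟨e, he⟩ : ∃ e, e = p - C.o p (C.o g f) := ⟨_, rfl⟩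
  rw [← he]
  have hd : C.IsDeg 0 e := by
    rw [he]
    refine C.deg_sub _ _ hp.1 ?_
    have h1 := C.deg_o _ p (C.deg_o f g hf hg) hp.1
    simpa using h1
  have h1 : ∀ ω, C.pb e ω = C.pb p ω - C.pb f (C.pb g (C.pb p ω)) := by
    intro ω
    rw [he, pb_sub, C.pb_o, C.pb_o f g]
  have h2 : ∀ ω, C.pb p (C.pb f ω) = C.pb f ω := by
    intro ω
    have h3 : C.pb (C.o f p) ω = C.pb p (C.pb f ω) := C.pb_o p f ω
    rw [← h3, hfp]
  have h3 : ∀ ω, C.pb f (C.pb g (C.pb f ω)) = C.pb f ω := by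
    intro ω
    have h4 := hfg ω
    rw [C.pb_o, C.pb_o f g] at h4
    exact h4
  have h4 : ∀ ω, C.pb p (C.pb p ω) = C.pb p ω := by
    intro ω
    have h5 : C.pb (C.o p p) ω = C.pb p (C.pb p ω) := C.pb_o p p ω
    rw [← h5, hp.2]
  have h5 : ∀ ω, C.pb e (C.pb f ω) = 0 := by
    intro ω
    rw [h1, h2, h3, sub_self]
  have h6 : ∀ ω, C.pb e (C.pb e ω) = C.pb e ω := by
    intro ω
    have h7 : C.pb e (C.pb e ω) = C.pb e (C.pb p ω) - C.pb e (C.pb f (C.pb g (C.pb p ω))) := by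
      have h8 := (pbL e).map_sub (C.pb p ω) (C.pb f (C.pb g (C.pb p ω)))
      rw [← h1 ω] at h8
      exact h8
    rw [h7, h5, sub_zero, h1, h4, h1 ω]
  have hle : ∀ m, C.img e m ≤ C.img p m := by
    intro m
    refine Submodule.span_le.2 ?_
    rintro _ ⟨ω, rfl⟩
    refine Submodule.subset_span ⟨ω - C.pb f (C.pb g (C.pb p ω)), ?_⟩
    have h7 : C.pb p (ω - C.pb f (C.pb g (C.pb p ω))) =
        C.pb p ω - C.pb p (C.pb f (C.pb g (C.pb p ω))) := (pbL p).map_sub _ _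
    rw [h7, h2, h1]
  intro m s t hst hne hlt
  rw [eq_bot_iff]
  intro ψ hψ
  have hψ1 := hψ.1
  have hψ2 := h m s t hst hne hlt ⟨complexify_mono (hle m) hψ.1, hψ.2⟩
  refine complexify_disjoint (fun θ hθ hθ' => ?_) hψ1 hψ2
  have hθ2 : θ ∈ Im e m := hθ
  rw [mem_Im] at hθ2 hθ'
  obtain ⟨ω, rfl⟩ := hθ2
  obtain ⟨η, hη⟩ := hθ'
  have h7 := hC X X e hd _ _ m hη
  rw [h5, h6] at h7
  exact h7

theorem con_surj (hfp' : C.o p' f = f)
    (hfg : ∀ ω, C.pb (C.o f (C.o g f)) ω = C.pb f ω)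
    (h : ∀ m s t : ℕ, s + t = m → s ≠ t → (s < c ∨ t < c) →
      complexify Y.per (Ker p' f m) ⊓ typeForms Y.T m s t = ⊥) :
    C.HasConiveau (p' - C.o f (C.o g p')) c := by
  obtain ⟨e, he⟩ : ∃ e, e = p' - C.o f (C.o g p') := ⟨_, rfl⟩
  rw [← he]
  have h1 : ∀ ω, C.pb e ω = C.pb p' (ω - C.pb g (C.pb f ω)) := by
    intro ω
    have h7 : C.pb p' (ω - C.pb g (C.pb f ω)) =
        C.pb p' ω - C.pb p' (C.pb g (C.pb f ω)) := (pbL p').map_sub _ _
    rw [he, pb_sub, C.pb_o, C.pb_o p' g, h7]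
  have h2 : ∀ ω, C.pb f (C.pb p' ω) = C.pb f ω := by
    intro ω
    have h3 : C.pb (C.o p' f) ω = C.pb f (C.pb p' ω) := C.pb_o f p' ω
    rw [← h3, hfp']
  have h3 : ∀ ω, C.pb f (C.pb g (C.pb f ω)) = C.pb f ω := by
    intro ω
    have h4 := hfg ω
    rw [C.pb_o, C.pb_o f g] at h4
    exact h4
  have hle : ∀ m, C.img e m ≤ Ker p' f m := by
    intro m
    refine Submodule.span_le.2 ?_
    rintro _ ⟨ω, rfl⟩
    refine Submodule.subset_span ⟨ω - C.pb g (C.pb f ω), ?_, by rw [h1]⟩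
    have h7 : C.pb f (ω - C.pb g (C.pb f ω)) =
        C.pb f ω - C.pb f (C.pb g (C.pb f ω)) := (pbL f).map_sub _ _
    rw [h2, h7, h3, sub_self]
  intro m s t hst hne hlt
  rw [eq_bot_iff, ← h m s t hst hne hlt]
  exact inf_le_inf_right _ (complexify_mono (hle m))

end

end Run7.h567.BL
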