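import Mathlib
import Pool.Agent.N178.BL.Main
import Pool.Agent.Run7.h567.BL.Cvs

/-!
# The generalized Hodge conjecture and the action of correspondences on cycles

The first two statements are adapted from `Pool.Agent.N178.BL.Main`, where they are stated for idempotent
correspondences.
-/

set_option autoImplicit false

namespace Run7.h567.BL

open Module Pool.Agent.Y90 Pool.Agent.R915 Pool.Agent.N178.BL
open Pool.Agent.W546.GHC (IsHodgeSubstructure LevelLE complexify typeForms)
open Pool.Agent.N178.HX (Cor GHC)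

noncomputable section

variable {C : ChowTheory} {X Y O : AV} {c : ℕ}

/-- The components of the image of a correspondence of degree zero. -/
theorem img_le' {f : C.Co X X} (hG : GHC C.alg X) (hf : C.IsDeg 0 f) (hc : C.HasConiveau f c)
    (m : ℕ) : ∀ v ∈ C.img f m, inc X m v ∈ ⨆ i : Ix C X c, Rg i := by
  have hV := C.hodge f hf m
  change IsHodgeSubstructure X.per (C.img f m) at hV
  rcases le_or_gt (2 * c) m with h | h
  · obtain ⟨n, rfl⟩ : ∃ n, m = n + 2 * c := ⟨m - 2 * c, by omega⟩
    have hL : LevelLE X.per (C.img f (n + 2 * c)) n := by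
      intro s t hst hne
      by_cases h1 : s = t
      · subst h1
        rw [sub_self, abs_zero]
        exact Int.natCast_nonneg n
      · have h2 : ¬ (s < c ∨ t < c) := fun h2 => hne (hc _ s t hst h1 h2)
        rw [abs_le]
        constructor <;> omega
    intro v hv
    have h1 := hG n c _ hV hL hv
    unfold Cor at h1
    clear hv
    induction h1 using Submodule.span_induction with
    | mem f hf =>
      obtain ⟨Y, P, a, b, τ, y, ha, hb, hab, hτ, hfx⟩ := hf
      obtain ⟨Γ, hΓ, h2⟩ := C.classes a b ha hb hab n (n + 2 * c) c rfl τ hτ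
      obtain ⟨ω, hω, hω'⟩ := h2 y f hfx
      have h3 : inc X (n + 2 * c) f ∈
          Rg (⟨Y, c, Γ, Or.inl rfl, hΓ⟩ : Ix C X c) := ⟨ω, eq_inc hω hω'⟩
      exact Submodule.mem_iSup_of_mem _ h3
    | zero => rw [map_zero]; exact Submodule.zero_mem _
    | add f g _ _ hf hg => rw [map_add]; exact Submodule.add_mem _ hf hg
    | smul r f _ hf => rw [map_smul]; exact Submodule.smul_mem _ _ hf
  · rcases Nat.even_or_odd' m with ⟨j, hj | hj⟩
    · obtain rfl : m = 0 + 2 * j := by omega
      have hL : LevelLE X.per (C.img f (0 + 2 * j)) (0 : ℕ) := by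
        intro s t hst hne
        by_cases h1 : s = t
        · subst h1
          rw [sub_self, abs_zero]
          exact Int.natCast_nonneg 0
        · exact absurd (hc _ s t hst h1 (by omega)) hne
      intro v hv
      have h1 := Pool.Agent.N507.GHC3.A_of_Cor C.alg X _ v (hG 0 j _ hV hL hv)
      obtain ⟨O, hO⟩ := exists_point
      have hO' : Subsingleton O.H := Module.finrank_zero_iff.1 hO
      have hb : Function.Bijective fun w : O.H × X.H => (0 : O.H →ₗ[ℚ] X.H) w.1 +
          (LinearMap.id : X.H →ₗ[ℚ] X.H) w.2 := by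
        constructor
        · intro w w' h2
          refine Prod.ext (Subsingleton.elim _ _) ?_
          simpa using h2
        · intro x
          exact ⟨(0, x), by simp⟩
      obtain ⟨Γ, hΓ, h2⟩ := C.classes (Y := O) (X := X) (P := X) 0 LinearMap.id
        ⟨0, fun v => by rw [LinearMap.zero_apply, LinearMap.zero_apply, map_zero]⟩
        ⟨LinearMap.id, fun v => rfl⟩ hb 0 (0 + 2 * j) j rfl
        (v.domDomCongr (Equiv.emptySum (Fin 0) (Fin (0 + 2 * j))).symm)
        (C.alg.reindex _ _ h1)
      obtain ⟨ω, hω, hω'⟩ := h2 (fun _ => 0) v (fun x => by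
        rw [AlternatingMap.domDomCongr_apply]
        congr 1)
      have h3 : inc X (0 + 2 * j) v ∈
          Rg (⟨O, j, Γ, Or.inr ⟨by omega, hO⟩, hΓ⟩ : Ix C X c) := ⟨ω, eq_inc hω hω'⟩
      exact Submodule.mem_iSup_of_mem _ h3
    · have h1 : complexify X.per (C.img f m) = ⊥ := by
        rw [eq_bot_iff]
        unfold IsHodgeSubstructure at hV
        rw [hV]
        refine iSup_le fun s => iSup_le fun t => iSup_le fun hst => ?_
        rw [hc m s t hst (by omega) (by omega)]
      intro v hv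
      rw [eq_bot_of h1, Submodule.mem_bot] at hv
      rw [hv, map_zero]
      exact Submodule.zero_mem _

/-- The generalized Hodge conjecture implies that the image of a correspondence of degree zero and of
Hodge coniveau at least `c` is fixed by an element of `Fac`. -/
theorem fix_of_ghc {f : C.Co X X} (hG : GHC C.alg X) (hf : C.IsDeg 0 f)
    (hc : C.HasConiveau f c) : Fix c f := by
  classical
  obtain ⟨U, hU⟩ : ∃ U : Submodule ℚ (HT X), U = (Finset.range (finrank ℚ X.H + 1)).sup fun m =>
    (C.img f m).map (inc X m) := ⟨_, rfl⟩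
  have hfg : U.FG := by
    rw [hU]
    refine Submodule.fg_finset_sup _ _ fun m _ => (finite_img m).map _
  have hle : U ≤ ⨆ i : Ix C X c, Rg i := by
    rw [hU]
    refine Finset.sup_le fun m _ => ?_
    rintro _ ⟨v, hv, rfl⟩
    exact img_le' hG hf hc m v hv
  obtain ⟨q, hq, hqU⟩ := exists_fix hfg hle
  refine ⟨q, hq, fun v => hqU _ ?_⟩
  rw [sum_inc (C.pb f v)]
  refine Submodule.sum_mem _ fun m hm => ?_
  rw [hU]
  have h2 := Finset.le_sup (f := fun m => (C.img f m).map (inc X m)) hm
  exact h2 ⟨C.pb f v m, Submodule.subset_span ⟨v, rfl⟩, rfl⟩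

variable {p : C.Co X X} {p' : C.Co Y Y} {f : C.Co X Y}

/-- Correspondences of Hodge coniveau at least `c` act nilpotently. -/
theorem nilp_of_ghc {f : C.Co X X} (hG : GHC C.alg X) (hf : C.IsDeg 0 f)
    (hc : C.HasConiveau f c) :
    ∃ N : ℕ, ∀ (O : AV) (i : ℤ) (z : C.Co O X), finrank ℚ O.H = 0 → i < c → HT0 C i z →
      (fun z => C.o f z)^[N] z = 0 :=
  (fix_of_ghc hG hf hc).nilp hf

/-- Injectivity. -/
theorem inj_of_ghc (hG : GHC C.alg X) (hC : PreservesDegrees C) (hp : C.IsMotive p)
    (hf : C.IsDeg 0 f) (hfp : C.o f p = f)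
    (h : ∀ m s t : ℕ, s + t = m → s ≠ t → (s < c ∨ t < c) →
      complexify X.per (C.img p m) ⊓ typeForms X.T m s t ≤ complexify X.per (Im f m))
    {i : ℤ} (hO : finrank ℚ O.H = 0) (hi : i < c)
    {z : C.Co O X} (hz : HT0 C i z) (hpz : C.o p z = z) (hfz : C.o f z = 0) : z = 0 := by
  obtain ⟨g, hg, hfg⟩ := C.regular f hf
  rw [neg_zero] at hg
  have hd : C.IsDeg 0 (p - C.o p (C.o g f)) := by
    refine C.deg_sub _ _ hp.1 ?_
    have h1 := C.deg_o _ p (C.deg_o f g hf hg) hp.1
    simpa using h1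
  exact inj hp hf hg (fix_of_ghc hG hd (con_inj hC hp hf hg hfp hfg h)) hO hi hz hpz hfz

/-- Surjectivity. -/
theorem surj_of_ghc (hG : GHC C.alg Y) (hp : C.IsMotive p) (hp' : C.IsMotive p')
    (hf : C.IsDeg 0 f) (hfp : C.o f p = f) (hfp' : C.o p' f = f)
    (h : ∀ m s t : ℕ, s + t = m → s ≠ t → (s < c ∨ t < c) →
      complexify Y.per (Ker p' f m) ⊓ typeForms Y.T m s t = ⊥)
    {i : ℤ} (hO : finrank ℚ O.H = 0) (hi : i < c)
    {z : C.Co O Y} (hz : HT0 C i z) (hpz : C.o p' z = z) :
    ∃ y : C.Co O X, HT0 C i y ∧ C.o p y = y ∧ C.o f y = z := by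
  obtain ⟨g, hg, hfg⟩ := C.regular f hf
  rw [neg_zero] at hg
  have hd : C.IsDeg 0 (p' - C.o f (C.o g p')) := by
    refine C.deg_sub _ _ hp'.1 ?_
    have h1 := C.deg_o _ f (C.deg_o p' g hp'.1 hg) hf
    simpa using h1
  exact surj hp hp' hf hg hfp hfp' (fix_of_ghc hG hd (con_surj hfp' hfg h)) hO hi hz hpz

end

end Run7.h567.BL
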