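import Mathlib
import Pool.Agent.N178.HX.Parts
import Pool.Agent.Run7.h567.BL.Ghc

/-!
# The generalized Hodge conjecture for the covered abelian varieties

Assembled from the starting files (`Pool.Agent.N178.HX`).
-/

set_option autoImplicit false

namespace Run7.h567.BL

open Module NumberField Pool.Agent.Y90 Pool.Agent.R915
open Pool.Agent.W547.KB (CMPair CMAV single)
open Pool.Agent.N830.HC (av)
open Pool.Agent.N178.HX

theorem ghcA (𝒜 : Sys) {K J : Type} [Fintype K] (T : K → CMPair) (b : K → J) (hb : IndB T b)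
    (hj : ∀ j, SignB T {k | b k = j} ∨
      (∃ F : Finset K, (∀ k, k ∈ F ↔ k ∈ {k | b k = j}) ∧ ∑ k ∈ F, finrank ℚ (T k).E ≤ 6) ∨
      ∃ (L : Type) (_ : Field L) (_ : NumberField L) (_ : IsCMField L),
        GalB T {k | b k = j} L ∧ finrank ℚ L ≤ 6) {X : AV} (hX : ClsT T X) : GHC 𝒜 X := by
  refine uncond' t_MAINT t_COV T b hb (fun j => ?_) 𝒜 X hX
  rcases hj j with h | h | h
  · exact Or.inl h
  · exact Or.inr (Or.inr h)
  · exact Or.inr (Or.inl h)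

theorem ghcB (𝒜 : Sys) {A X : AV} (hA : finrank ℚ A.H ≤ 6)
    (hX : ∀ Y, IsFactor Y X → IsFactor Y A) : GHC 𝒜 X :=
  pow3 t_MAINT t_COV t_POW A X hA hX 𝒜

theorem ghcC (𝒜 : Sys) (hH : ∀ D : CMAV, 𝒜.AllHodge (av D)) {X : AV}
    (hX : ∀ Y, IsFactor Y X → (HasCMult Y ∨ (finrank ℚ Y.H ≤ 6 ∨ QuadMult Y ∨ RealMult Y ∨
      FiveDim Y ∨ FullHodge Y)) ∧
      (¬ HasCMult Y → finrank ℚ Y.H = 8 → ∀ d, ¬ Unbalanced Y d)) : GHC 𝒜 X := by
  refine (all_iff' t_MAINT SPG.t_SPG t_TOT Pool.Agent.N507.GHC3.t_ZERO t_EXL 𝒜).2 hH X ?_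
  intro Y hY
  refine ⟨?_, (hX Y hY).2⟩
  have h := (hX Y hY).1
  tauto

end Run7.h567.BL
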